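import Mathlib

/-!
# The Newton covering number of cube pyramids depends on the height, in every dimension
-/

open Set Metric

namespace Pool.Agent.Results.MP_90eaab_co.EveryDimension

/-- `n` congruent copies of `C` (images under isometries of the whole space) cover a
neighbourhood of `C`: their union contains an open set containing `C`. -/
def CoveredBy {E : Type} [PseudoMetricSpace E] (C : Set E) (n : ℕ) : Prop :=
  ∃ g : Fin n → (E ≃ᵢ E), ∃ U : Set E, IsOpen U ∧ C ⊆ U ∧ U ⊆ ⋃ i, g i '' C

/-- The Newton covering number `N*(C)`: the least number of congruent copies of `C` which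
together cover a neighbourhood of `C`. -/
noncomputable def newtonNumber {E : Type} [PseudoMetricSpace E] (C : Set E) : ℕ :=
  sInf {n | CoveredBy C n}

/-- The `n`-dimensional unit cube, centred at the origin and lying in the hyperplane
`x 0 = 0` of the `(n+1)`-dimensional Euclidean space. -/
def cube (n : ℕ) : Set (EuclideanSpace ℝ (Fin (n + 1))) :=
  {x | x 0 = 0 ∧ ∀ i : Fin n, |x i.succ| ≤ 1 / 2}

/-- The right pyramid `P^{n+1}(h)` of height `h` over the unit cube: the convex hull of the cube
and of the point at height `h` above its centre. -/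
def pyramid (n : ℕ) (h : ℝ) : Set (EuclideanSpace ℝ (Fin (n + 1))) :=
  convexHull ℝ (insert (EuclideanSpace.single 0 h) (cube n))

variable {n : ℕ}

lemma mem_pyramid {h : ℝ} (hh : 0 < h) (x : EuclideanSpace ℝ (Fin (n + 1))) :
    x ∈ pyramid n h ↔ 0 ≤ x 0 ∧ x 0 ≤ h ∧ ∀ i : Fin n, |x i.succ| ≤ (1 - x 0 / h) / 2 := by
  constructor
  · intro hx
    have hconv : Convex ℝ {x : EuclideanSpace ℝ (Fin (n + 1)) |
        0 ≤ x 0 ∧ x 0 ≤ h ∧ ∀ i : Fin n, |x i.succ| ≤ (1 - x 0 / h) / 2} := by
      intro x hx y hy a b ha hb hab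
      obtain ⟨hx1, hx2, hx3⟩ := hx
      obtain ⟨hy1, hy2, hy3⟩ := hy
      refine ⟨?_, ?_, ?_⟩
      · simp only [PiLp.add_apply, PiLp.smul_apply, smul_eq_mul]
        positivity
      · simp only [PiLp.add_apply, PiLp.smul_apply, smul_eq_mul]
        nlinarith
      · intro i
        simp only [PiLp.add_apply, PiLp.smul_apply, smul_eq_mul]
        calc |a * x i.succ + b * y i.succ| ≤ |a * x i.succ| + |b * y i.succ| := abs_add_le _ _
          _ = a * |x i.succ| + b * |y i.succ| := by
            rw [abs_mul, abs_mul, abs_of_nonneg ha, abs_of_nonneg hb]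
          _ ≤ a * ((1 - x 0 / h) / 2) + b * ((1 - y 0 / h) / 2) := by
            gcongr
            · exact hx3 i
            · exact hy3 i
          _ = ((a + b) - (a * x 0 + b * y 0) / h) / 2 := by ring
          _ = (1 - (a * x 0 + b * y 0) / h) / 2 := by rw [hab]
    refine convexHull_min ?_ hconv hx
    rintro z (rfl | ⟨hz0, hz⟩)
    · refine ⟨?_, ?_, ?_⟩
      · simp [hh.le]
      · simp
      · intro i
        simp [hh.ne']
    · refine ⟨hz0.ge, by rw [hz0]; exact hh.le, ?_⟩
      intro i
      rw [hz0]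
      simpa using hz i
  · rintro ⟨h0, h1, h2⟩
    rcases h1.lt_or_eq with hlt | heq
    · set t := x 0 / h with ht
      have ht1 : t < 1 := by rw [ht, div_lt_one hh]; exact hlt
      have ht0 : 0 ≤ t := by positivity
      have h1t : 0 < 1 - t := by linarith
      let b : EuclideanSpace ℝ (Fin (n + 1)) :=
        WithLp.toLp 2 (Fin.cons 0 (fun i => x i.succ / (1 - t)))
      have hb : b ∈ cube n := by
        refine ⟨by simp [b], fun i => ?_⟩
        have : b i.succ = x i.succ / (1 - t) := by simp [b]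
        rw [this, abs_div, abs_of_pos h1t, div_le_iff₀ h1t]
        have := h2 i
        linarith
      have hx : x = t • EuclideanSpace.single 0 h + (1 - t) • b := by
        ext j
        refine Fin.cases ?_ (fun i => ?_) j
        · simp only [PiLp.add_apply, PiLp.smul_apply, smul_eq_mul]
          have h3 : b 0 = 0 := by simp [b]
          rw [h3]
          simp [ht, hh.ne']
        · simp only [PiLp.add_apply, PiLp.smul_apply, smul_eq_mul]
          have h3 : b i.succ = x i.succ / (1 - t) := by simp [b]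
          rw [h3]
          simp
          field_simp
      rw [hx]
      refine (convex_convexHull ℝ _) (subset_convexHull ℝ _ (mem_insert _ _))
        (subset_convexHull ℝ _ (mem_insert_of_mem _ hb)) ht0 h1t.le (by ring)
    · have hx : x = EuclideanSpace.single 0 h := by
        ext j
        refine Fin.cases ?_ (fun i => ?_) j
        · simp [heq]
        · have h3 := h2 i
          rw [heq, div_self hh.ne'] at h3
          have : |x i.succ| ≤ 0 := by simpa using h3
          have := abs_nonpos_iff.1 this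
          simp [this]
      rw [hx]
      exact subset_convexHull ℝ _ (mem_insert _ _)


section General

variable {E : Type} [NormedAddCommGroup E] [NormedSpace ℝ E]

/-- dilation about a centre, close to the identity, stays in an open set -/
lemma exists_dilate {U : Set E} (hU : IsOpen U) (o : E) (s : Finset E) (hs : ∀ a ∈ s, a ∈ U) :
    ∃ t : ℝ, 1 < t ∧ ∀ a ∈ s, o + t • (a - o) ∈ U := by
  have h : ∀ a ∈ s, ∀ᶠ t : ℝ in nhds 1, o + t • (a - o) ∈ U := by
    intro a ha
    have hc : Continuous fun t : ℝ => o + t • (a - o) := by fun_prop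
    have h1 : (fun t : ℝ => o + t • (a - o)) 1 ∈ U := by
      simpa using hs a ha
    exact hc.continuousAt.eventually (hU.mem_nhds h1)
  have h2 : ∀ᶠ t : ℝ in nhds 1, ∀ a ∈ s, o + t • (a - o) ∈ U :=
    (Finset.eventually_all s).2 h
  have h3 : ∀ᶠ t : ℝ in nhdsWithin 1 (Ioi 1), ∀ a ∈ s, o + t • (a - o) ∈ U :=
    nhdsWithin_le_nhds h2
  obtain ⟨t, ht1, ht2⟩ := (h3.and self_mem_nhdsWithin).exists
  exact ⟨t, ht2, ht1⟩

lemma dist_dilate (o a b : E) {t : ℝ} (ht : 0 ≤ t) :
    dist (o + t • (a - o)) (o + t • (b - o)) = t * dist a b := by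
  rw [dist_eq_norm, dist_eq_norm]
  have : o + t • (a - o) - (o + t • (b - o)) = t • (a - b) := by
    rw [smul_sub, smul_sub, smul_sub]; abel
  rw [this, norm_smul, Real.norm_of_nonneg ht]

/-- A set of diameter at most `D` containing three points at mutual distance `D` cannot be
covered, with a neighbourhood, by two congruent copies. -/
lemma three_le {C : Set E} {D : ℝ} (hD : 0 < D) (hdiam : ∀ x ∈ C, ∀ y ∈ C, dist x y ≤ D)
    {a b c : E} (ha : a ∈ C) (hb : b ∈ C) (hc : c ∈ C) (hab : dist a b = D) (hac : dist a c = D)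
    (hbc : dist b c = D) {k : ℕ} (hk : CoveredBy C k) : 3 ≤ k := by
  classical
  by_contra hlt
  obtain ⟨g, U, hU, hCU, hcov⟩ := hk
  obtain ⟨t, ht, hmem⟩ := exists_dilate hU 0 {a, b, c} (by
    intro x hx
    simp only [Finset.mem_insert, Finset.mem_singleton] at hx
    rcases hx with rfl | rfl | rfl
    · exact hCU ha
    · exact hCU hb
    · exact hCU hc)
  have h0t : 0 ≤ t := by linarith
  let p : Fin 3 → E := ![a, b, c]
  have hp : ∀ i, ∃ j, (0 : E) + t • (p i - 0) ∈ g j '' C := by
    intro i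
    have : (0 : E) + t • (p i - 0) ∈ U := by
      apply hmem
      fin_cases i <;> simp [p]
    exact mem_iUnion.1 (hcov this)
  choose j hj using hp
  have hdist : ∀ i i', i ≠ i' → dist (p i) (p i') = D := by
    intro i i' hii
    fin_cases i <;> fin_cases i' <;> first | exact absurd rfl hii | skip
    · exact hab
    · exact hac
    · rw [dist_comm]; exact hab
    · exact hbc
    · rw [dist_comm]; exact hac
    · rw [dist_comm]; exact hbc
  have hninj : ¬ Function.Injective j := by
    intro hinj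
    have := Fintype.card_le_of_injective j hinj
    simp at this
    omega
  rw [Function.Injective] at hninj
  push Not at hninj
  obtain ⟨i, i', hji, hii⟩ := hninj
  obtain ⟨x, hx, hxe⟩ := hj i
  obtain ⟨y, hy, hye⟩ := hj i'
  have h1 : dist ((0 : E) + t • (p i - 0)) (0 + t • (p i' - 0)) ≤ D := by
    rw [← hxe, ← hye, hji, (g (j i')).dist_eq]
    exact hdiam x hx y hy
  rw [dist_dilate _ _ _ h0t, hdist i i' hii] at h1
  nlinarith

/-- One copy never suffices for a set with a pair of points realising a positive diameter. -/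
lemma two_le {C : Set E} {D : ℝ} (hD : 0 < D) (hdiam : ∀ x ∈ C, ∀ y ∈ C, dist x y ≤ D)
    {a b : E} (ha : a ∈ C) (hb : b ∈ C) (hab : dist a b = D) {k : ℕ} (hk : CoveredBy C k) :
    2 ≤ k := by
  classical
  by_contra hlt
  obtain ⟨g, U, hU, hCU, hcov⟩ := hk
  obtain ⟨t, ht, hmem⟩ := exists_dilate hU 0 {a, b} (by
    intro x hx
    simp only [Finset.mem_insert, Finset.mem_singleton] at hx
    rcases hx with rfl | rfl
    · exact hCU ha
    · exact hCU hb)
  have h0t : 0 ≤ t := by linarith
  have h1 : (0 : E) + t • (a - 0) ∈ U := hmem a (by simp)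
  have h2 : (0 : E) + t • (b - 0) ∈ U := hmem b (by simp)
  obtain ⟨i, x, hx, hxe⟩ := mem_iUnion.1 (hcov h1)
  obtain ⟨i', y, hy, hye⟩ := mem_iUnion.1 (hcov h2)
  have hii : i = i' := by
    have h3 := i.2
    have h4 := i'.2
    apply Fin.ext
    omega
  subst hii
  have h5 : dist ((0 : E) + t • (a - 0)) (0 + t • (b - 0)) ≤ D := by
    rw [← hxe, ← hye, (g i).dist_eq]
    exact hdiam x hx y hy
  rw [dist_dilate _ _ _ h0t, hab] at h5
  nlinarith

omit [NormedSpace ℝ E] in
/-- A compact set with non-empty interior can be covered, with a neighbourhood, by finitely many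
copies. -/
lemma exists_coveredBy {C : Set E} (hC : IsCompact C) (hint : (interior C).Nonempty) :
    ∃ k, CoveredBy C k := by
  obtain ⟨p, hp⟩ := hint
  obtain ⟨s, hs⟩ := hC.elim_finite_subcover
    (fun x : E => (IsometryEquiv.addRight (x - p)) '' interior C)
    (fun x => (IsometryEquiv.addRight (x - p)).toHomeomorph.isOpenMap _ isOpen_interior)
    (fun x _ => mem_iUnion.2 ⟨x, p, hp, by simp⟩)
  refine ⟨s.card, fun i => IsometryEquiv.addRight (((s.equivFin.symm i : s) : E) - p),
    ⋃ x ∈ s, (IsometryEquiv.addRight (x - p)) '' interior C, ?_, hs, ?_⟩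
  · exact isOpen_biUnion fun x _ =>
      (IsometryEquiv.addRight (x - p)).toHomeomorph.isOpenMap _ isOpen_interior
  · intro z hz
    obtain ⟨x, hx, hz⟩ := mem_iUnion₂.1 hz
    refine mem_iUnion.2 ⟨s.equivFin ⟨x, hx⟩, ?_⟩
    simp only [Equiv.symm_apply_apply]
    exact image_mono interior_subset hz

end General


section Rotation

/-- the rotation by an angle with cosine `c` and sine `s` in the plane of the coordinates `0`
and `i.succ` -/
noncomputable def rotFun (i : Fin n) (c s : ℝ) (x : EuclideanSpace ℝ (Fin (n + 1))) :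
    EuclideanSpace ℝ (Fin (n + 1)) :=
  WithLp.toLp 2 (Fin.cons (c * x 0 - s * x i.succ)
    (fun j => if j = i then c * x i.succ + s * x 0 else x j.succ))

lemma rotFun_zero (i : Fin n) (c s : ℝ) (x : EuclideanSpace ℝ (Fin (n + 1))) :
    rotFun i c s x 0 = c * x 0 - s * x i.succ := by
  simp [rotFun]

lemma rotFun_succ (i j : Fin n) (c s : ℝ) (x : EuclideanSpace ℝ (Fin (n + 1))) :
    rotFun i c s x j.succ = if j = i then c * x i.succ + s * x 0 else x j.succ := by
  simp [rotFun]

lemma norm_rotFun (i : Fin n) {c s : ℝ} (hcs : c ^ 2 + s ^ 2 = 1)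
    (x : EuclideanSpace ℝ (Fin (n + 1))) : ‖rotFun i c s x‖ = ‖x‖ := by
  rw [EuclideanSpace.norm_eq, EuclideanSpace.norm_eq]
  congr 1
  simp only [Real.norm_eq_abs, sq_abs]
  rw [Fin.sum_univ_succ, Fin.sum_univ_succ, rotFun_zero]
  simp only [rotFun_succ]
  rw [← Finset.add_sum_erase _ _ (Finset.mem_univ i),
    ← Finset.add_sum_erase _ (fun j : Fin n => x j.succ ^ 2) (Finset.mem_univ i)]
  have h1 : ∑ j ∈ Finset.univ.erase i,
      (if j = i then c * x i.succ + s * x 0 else x j.succ) ^ 2
      = ∑ j ∈ Finset.univ.erase i, x j.succ ^ 2 := by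
    refine Finset.sum_congr rfl fun j hj => ?_
    rw [if_neg (Finset.ne_of_mem_erase hj)]
  rw [h1, if_pos rfl]
  linear_combination (x 0 ^ 2 + x i.succ ^ 2) * hcs

/-- the rotation as a linear isometry equivalence -/
noncomputable def rot (i : Fin n) (c s : ℝ) (hcs : c ^ 2 + s ^ 2 = 1) :
    EuclideanSpace ℝ (Fin (n + 1)) ≃ₗᵢ[ℝ] EuclideanSpace ℝ (Fin (n + 1)) :=
  LinearIsometry.toLinearIsometryEquiv
    { toFun := rotFun i c s
      map_add' := by
        intro x y
        ext j
        refine Fin.cases ?_ (fun k => ?_) j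
        · simp only [rotFun_zero, PiLp.add_apply]; ring
        · simp only [rotFun_succ, PiLp.add_apply]
          split_ifs <;> ring
      map_smul' := by
        intro r x
        ext j
        refine Fin.cases ?_ (fun k => ?_) j
        · simp only [rotFun_zero, PiLp.smul_apply, smul_eq_mul, RingHom.id_apply]; ring
        · simp only [rotFun_succ, PiLp.smul_apply, smul_eq_mul, RingHom.id_apply]
          split_ifs <;> ring
      norm_map' := norm_rotFun i hcs } rfl

lemma rot_apply (i : Fin n) (c s : ℝ) (hcs : c ^ 2 + s ^ 2 = 1)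
    (x : EuclideanSpace ℝ (Fin (n + 1))) : rot i c s hcs x = rotFun i c s x := rfl

/-- There is a linear isometry of `ℝ^{n+1}` which maps the points of the unit cube in the
hyperplane `x 0 = 0` strictly into the cylinder over the unit cube. -/
lemma exists_rotation (k : ℕ) : ∀ σ : ℝ, 0 < σ → σ ≤ 1 →
    ∃ (L : EuclideanSpace ℝ (Fin (n + 1)) ≃ₗᵢ[ℝ] EuclideanSpace ℝ (Fin (n + 1))) (ρ : ℝ),
      0 ≤ ρ ∧ ρ < 1 ∧ ∀ (M η : ℝ) (x : EuclideanSpace ℝ (Fin (n + 1))), 0 ≤ M → 0 ≤ η →
        (∀ i : Fin n, |x i.succ| ≤ M) → |x 0| ≤ η →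
        (∀ i : Fin n, (i : ℕ) < k → |L x i.succ| ≤ ρ * M + η) ∧
        (∀ i : Fin n, k ≤ (i : ℕ) → L x i.succ = x i.succ) ∧ |L x 0| ≤ σ * M + η := by
  induction k with
  | zero =>
    intro σ hσ _
    refine ⟨LinearIsometryEquiv.refl ℝ _, 0, le_rfl, one_pos, ?_⟩
    intro M η x hM hη _ h0
    refine ⟨fun i hi => absurd hi (Nat.not_lt_zero _), fun i _ => rfl, ?_⟩
    have : (LinearIsometryEquiv.refl ℝ (EuclideanSpace ℝ (Fin (n + 1)))) x 0 = x 0 := rfl
    rw [this]
    have : 0 ≤ σ * M := by positivity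
    linarith
  | succ k ih =>
    intro σ hσ hσ1
    by_cases hk : k < n
    · obtain ⟨L, ρ, hρ0, hρ1, hL⟩ := ih (σ / 8) (by positivity) (by linarith)
      set s : ℝ := σ / 2 with hs
      have hs0 : 0 < s := by positivity
      have hs1 : s ≤ 1 / 2 := by rw [hs]; linarith
      set c : ℝ := Real.sqrt (1 - s ^ 2) with hc
      have hc2 : c ^ 2 = 1 - s ^ 2 := by
        rw [hc, Real.sq_sqrt]
        nlinarith
      have hc0 : 0 ≤ c := Real.sqrt_nonneg _
      have hc1 : c ≤ 1 - s ^ 2 / 2 := by
        rw [hc]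
        apply Real.sqrt_le_iff.2
        constructor
        · nlinarith
        · nlinarith [sq_nonneg (s ^ 2)]
      have hcs : c ^ 2 + s ^ 2 = 1 := by rw [hc2]; ring
      have hcle : c ≤ 1 := by nlinarith
      refine ⟨L.trans (rot ⟨k, hk⟩ c s hcs), max ρ (c + s * (σ / 8)), le_max_of_le_left hρ0,
        max_lt hρ1 ?_, ?_⟩
      · have : σ / 8 = s / 4 := by rw [hs]; ring
        rw [this]
        nlinarith
      intro M η x hM hη hx h0
      obtain ⟨h1, h2, h3⟩ := hL M η x hM hη hx h0
      have happ : (L.trans (rot ⟨k, hk⟩ c s hcs)) x = rotFun ⟨k, hk⟩ c s (L x) := rfl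
      have hkx : L x (Fin.succ ⟨k, hk⟩) = x (Fin.succ ⟨k, hk⟩) := h2 ⟨k, hk⟩ le_rfl
      refine ⟨?_, ?_, ?_⟩
      · intro i hi
        rw [happ, rotFun_succ]
        split_ifs with hik
        · rw [hkx]
          calc |c * x (Fin.succ ⟨k, hk⟩) + s * L x 0|
              ≤ |c * x (Fin.succ ⟨k, hk⟩)| + |s * L x 0| := abs_add_le _ _
            _ = c * |x (Fin.succ ⟨k, hk⟩)| + s * |L x 0| := by
              rw [abs_mul, abs_mul, abs_of_nonneg hc0, abs_of_pos hs0]
            _ ≤ c * M + s * (σ / 8 * M + η) := by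
              gcongr
              exact hx _
            _ = (c + s * (σ / 8)) * M + s * η := by ring
            _ ≤ max ρ (c + s * (σ / 8)) * M + η := by
              gcongr
              · exact le_max_right _ _
              · nlinarith
        · have hik' : (i : ℕ) < k := by
            rcases Nat.lt_succ_iff_lt_or_eq.1 hi with h | h
            · exact h
            · exact absurd (Fin.ext h) hik
          refine (h1 i hik').trans ?_
          gcongr
          exact le_max_left _ _
      · intro i hi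
        rw [happ, rotFun_succ, if_neg, h2 i (by omega)]
        intro h
        rw [h] at hi
        simp at hi
      · rw [happ, rotFun_zero, hkx]
        calc |c * L x 0 - s * x (Fin.succ ⟨k, hk⟩)|
            ≤ |c * L x 0| + |s * x (Fin.succ ⟨k, hk⟩)| := abs_sub _ _
          _ = c * |L x 0| + s * |x (Fin.succ ⟨k, hk⟩)| := by
            rw [abs_mul, abs_mul, abs_of_nonneg hc0, abs_of_pos hs0]
          _ ≤ 1 * (σ / 8 * M + η) + s * M := by
            gcongr
            exact hx _
          _ ≤ σ * M + η := by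
            rw [hs]
            nlinarith
    · obtain ⟨L, ρ, hρ0, hρ1, hL⟩ := ih σ hσ hσ1
      refine ⟨L, ρ, hρ0, hρ1, ?_⟩
      intro M η x hM hη hx h0
      obtain ⟨h1, h2, h3⟩ := hL M η x hM hη hx h0
      refine ⟨fun i _ => h1 i (by have := i.2; omega), fun i hi => ?_, h3⟩
      have := i.2
      omega

end Rotation


section Main

/-- the base vertex all of whose cube coordinates equal `a` -/
noncomputable def vert (n : ℕ) (a : ℝ) : EuclideanSpace ℝ (Fin (n + 1)) :=
  WithLp.toLp 2 (Fin.cons 0 (fun _ => a))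

lemma vert_zero (a : ℝ) : vert n a 0 = 0 := by simp [vert]

lemma vert_succ (a : ℝ) (i : Fin n) : vert n a i.succ = a := by simp [vert]

lemma vert_mem_cube {a : ℝ} (ha : |a| ≤ 1 / 2) : vert n a ∈ cube n :=
  ⟨vert_zero a, fun i => by rw [vert_succ]; exact ha⟩

lemma cube_subset (h : ℝ) : cube n ⊆ pyramid n h := fun _ hx =>
  subset_convexHull ℝ _ (mem_insert_of_mem _ hx)

lemma apex_mem (h : ℝ) : EuclideanSpace.single 0 h ∈ pyramid n h :=
  subset_convexHull ℝ _ (mem_insert _ _)

lemma dist_sq (x y : EuclideanSpace ℝ (Fin (n + 1))) :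
    dist x y = Real.sqrt ((x 0 - y 0) ^ 2 + ∑ i : Fin n, (x i.succ - y i.succ) ^ 2) := by
  rw [EuclideanSpace.dist_eq, Fin.sum_univ_succ]
  simp only [Real.dist_eq, sq_abs]

lemma dist_cube_le {x y : EuclideanSpace ℝ (Fin (n + 1))} (hx : x ∈ cube n) (hy : y ∈ cube n) :
    dist x y ≤ Real.sqrt n := by
  rw [dist_sq]
  apply Real.sqrt_le_sqrt
  rw [hx.1, hy.1]
  have : ∀ i : Fin n, (x i.succ - y i.succ) ^ 2 ≤ 1 := by
    intro i
    have h1 := abs_le.1 (hx.2 i)
    have h2 := abs_le.1 (hy.2 i)
    have h3 : |x i.succ - y i.succ| ≤ 1 := by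
      rw [abs_le]; constructor <;> linarith
    rw [← sq_abs]
    exact pow_le_one₀ (abs_nonneg _) h3
  calc ((0 : ℝ) - 0) ^ 2 + ∑ i : Fin n, (x i.succ - y i.succ) ^ 2
      ≤ ((0 : ℝ) - 0) ^ 2 + ∑ _i : Fin n, (1 : ℝ) := by gcongr with i; exact this i
    _ = (n : ℝ) := by simp

lemma dist_apex_le (h : ℝ) {x : EuclideanSpace ℝ (Fin (n + 1))} (hx : x ∈ cube n) :
    dist (EuclideanSpace.single 0 h) x ≤ Real.sqrt (h ^ 2 + n / 4) := by
  rw [dist_sq]
  apply Real.sqrt_le_sqrt
  rw [hx.1]
  have : ∀ i : Fin n, (EuclideanSpace.single (0 : Fin (n + 1)) h i.succ - x i.succ) ^ 2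
      ≤ (1 / 4 : ℝ) := by
    intro i
    have h1 := abs_le.1 (hx.2 i)
    have h2 : (EuclideanSpace.single (0 : Fin (n + 1)) h : EuclideanSpace ℝ (Fin (n + 1))) i.succ
        = 0 := by simp
    rw [h2]
    nlinarith
  calc _ ≤ ((EuclideanSpace.single (0 : Fin (n + 1)) h : EuclideanSpace ℝ (Fin (n + 1))) 0 - 0) ^ 2
        + ∑ _i : Fin n, (1 / 4 : ℝ) := by gcongr with i; exact this i
    _ = h ^ 2 + n / 4 := by simp; ring

lemma dist_le_of_mem {h D : ℝ} (hD0 : 0 ≤ D) (h1 : Real.sqrt n ≤ D)
    (h2 : Real.sqrt (h ^ 2 + n / 4) ≤ D)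
    {x y : EuclideanSpace ℝ (Fin (n + 1))} (hx : x ∈ pyramid n h) (hy : y ∈ pyramid n h) :
    dist x y ≤ D := by
  obtain ⟨x', hx', y', hy', hxy⟩ := convexHull_exists_dist_ge2 hx hy
  refine hxy.trans ?_
  rcases hx' with rfl | hx' <;> rcases hy' with rfl | hy'
  · simpa using hD0
  · exact (dist_apex_le h hy').trans h2
  · rw [dist_comm]; exact (dist_apex_le h hx').trans h2
  · exact (dist_cube_le hx' hy').trans h1

lemma dist_verts : dist (vert n (1 / 2)) (vert n (-(1 / 2))) = Real.sqrt n := by
  rw [dist_sq]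
  congr 1
  simp only [vert_zero, vert_succ]
  norm_num

lemma dist_apex_vert (h : ℝ) {a : ℝ} (ha : a ^ 2 = 1 / 4) :
    dist (EuclideanSpace.single 0 h) (vert n a) = Real.sqrt (h ^ 2 + n / 4) := by
  rw [dist_sq]
  congr 1
  have : ∀ i : Fin n, ((EuclideanSpace.single (0 : Fin (n + 1)) h :
      EuclideanSpace ℝ (Fin (n + 1))) i.succ - vert n a i.succ) ^ 2 = 1 / 4 := by
    intro i
    have h2 : (EuclideanSpace.single (0 : Fin (n + 1)) h : EuclideanSpace ℝ (Fin (n + 1))) i.succ
        = 0 := by simp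
    rw [h2, vert_succ]
    linear_combination ha
  rw [Finset.sum_congr rfl fun i _ => this i, vert_zero]
  simp
  ring

lemma continuous_coord (j : Fin (n + 1)) :
    Continuous fun x : EuclideanSpace ℝ (Fin (n + 1)) => x j := by fun_prop

lemma isCompact_pyramid {h : ℝ} (hh : 0 < h) : IsCompact (pyramid n h) := by
  apply Metric.isCompact_of_isClosed_isBounded
  · have : pyramid n h = {x | 0 ≤ x 0} ∩ {x | x 0 ≤ h} ∩
        ⋂ i : Fin n, {x | |x i.succ| ≤ (1 - x 0 / h) / 2} := by
      ext x
      rw [mem_pyramid hh]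
      simp [and_assoc]
    rw [this]
    refine IsClosed.inter (IsClosed.inter (isClosed_le continuous_const (continuous_coord 0))
      (isClosed_le (continuous_coord 0) continuous_const)) ?_
    refine isClosed_iInter fun i => isClosed_le (continuous_coord _).abs ?_
    have := continuous_coord (n := n) 0
    fun_prop
  · rw [Metric.isBounded_iff]
    exact ⟨max (Real.sqrt n) (Real.sqrt (h ^ 2 + n / 4)), fun x hx y hy =>
      dist_le_of_mem (le_max_of_le_left (Real.sqrt_nonneg _)) (le_max_left _ _) (le_max_right _ _)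
        hx hy⟩

lemma interior_nonempty {h : ℝ} (hh : 0 < h) : (interior (pyramid n h)).Nonempty := by
  refine ⟨EuclideanSpace.single 0 (h / 2), ?_⟩
  rw [mem_interior]
  refine ⟨{x | 0 < x 0} ∩ {x | x 0 < h} ∩ ⋂ i : Fin n, {x | |x i.succ| < (1 - x 0 / h) / 2},
    ?_, ?_, ?_⟩
  · rintro x ⟨⟨h1, h2⟩, h3⟩
    rw [mem_pyramid hh]
    refine ⟨le_of_lt h1, le_of_lt h2, fun i => ?_⟩
    exact le_of_lt (mem_iInter.1 h3 i)
  · refine IsOpen.inter (IsOpen.inter (isOpen_lt continuous_const (continuous_coord 0))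
      (isOpen_lt (continuous_coord 0) continuous_const)) ?_
    refine isOpen_iInter_of_finite fun i => isOpen_lt (continuous_coord _).abs ?_
    have := continuous_coord (n := n) 0
    fun_prop
  · refine ⟨⟨?_, ?_⟩, ?_⟩
    · simp [hh]
    · simp [hh]
    · rw [mem_iInter]
      intro i
      show |(EuclideanSpace.single (0 : Fin (n + 1)) (h / 2) :
          EuclideanSpace ℝ (Fin (n + 1))) i.succ| < (1 - (EuclideanSpace.single (0 : Fin (n + 1))
          (h / 2) : EuclideanSpace ℝ (Fin (n + 1))) 0 / h) / 2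
      have h2 : (EuclideanSpace.single (0 : Fin (n + 1)) (h / 2) :
          EuclideanSpace ℝ (Fin (n + 1))) i.succ = 0 := by simp
      have h3 : (EuclideanSpace.single (0 : Fin (n + 1)) (h / 2) :
          EuclideanSpace ℝ (Fin (n + 1))) 0 = h / 2 := by simp
      rw [h2, h3]
      field_simp
      norm_num

/-- Two copies suffice for all tall pyramids. -/
lemma exists_tall : ∃ H : ℝ, 0 < H ∧ ∀ h, H ≤ h → CoveredBy (pyramid n h) 2 := by
  obtain ⟨L, ρ, hρ0, hρ1, hL⟩ := exists_rotation (n := n) n 1 one_pos le_rfl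
  have h1ρ : 0 < 1 - ρ := by linarith
  refine ⟨8 / (1 - ρ), by positivity, fun h hh => ?_⟩
  have hpos : 0 < h := lt_of_lt_of_le (by positivity) hh
  have hρh : 8 ≤ h * (1 - ρ) := by rwa [div_le_iff₀ h1ρ] at hh
  have h8 : 8 ≤ h := by nlinarith
  set η : ℝ := (1 - ρ) / 8 with hη
  have hη0 : 0 < η := by positivity
  have hη1 : η ≤ 1 / 8 := by rw [hη]; linarith
  -- the two isometries
  let g₁ : EuclideanSpace ℝ (Fin (n + 1)) ≃ᵢ EuclideanSpace ℝ (Fin (n + 1)) :=
    L.toIsometryEquiv.trans (IsometryEquiv.addRight (EuclideanSpace.single 0 2))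
  let g₂ : EuclideanSpace ℝ (Fin (n + 1)) ≃ᵢ EuclideanSpace ℝ (Fin (n + 1)) :=
    IsometryEquiv.addRight (EuclideanSpace.single 0 η)
  refine ⟨![g₁.symm, g₂], {x | -η < x 0} ∩ {x | x 0 < h + η} ∩
    ⋂ i : Fin n, {x | |x i.succ| < (1 - (x 0 - η) / h) / 2}, ?_, ?_, ?_⟩
  · refine IsOpen.inter (IsOpen.inter (isOpen_lt continuous_const (continuous_coord 0))
      (isOpen_lt (continuous_coord 0) continuous_const)) ?_
    refine isOpen_iInter_of_finite fun i => isOpen_lt (continuous_coord _).abs ?_
    have := continuous_coord (n := n) 0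
    fun_prop
  · intro x hx
    rw [mem_pyramid hpos] at hx
    obtain ⟨h1, h2, h3⟩ := hx
    refine ⟨⟨?_, ?_⟩, ?_⟩
    · show -η < x 0
      linarith
    · show x 0 < h + η
      linarith
    · rw [mem_iInter]
      intro i
      show |x i.succ| < (1 - (x 0 - η) / h) / 2
      refine lt_of_le_of_lt (h3 i) ?_
      have : (x 0 - η) / h < x 0 / h := by
        gcongr
        linarith
      linarith
  · rintro x ⟨⟨h1, h2⟩, h3⟩
    rw [mem_iInter] at h3
    have h1' : -η < x 0 := h1
    have h2' : x 0 < h + η := h2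
    have h3' : ∀ i : Fin n, |x i.succ| < (1 - (x 0 - η) / h) / 2 := h3
    rw [mem_iUnion]
    rcases lt_or_ge (x 0) η with hlt | hge
    · refine ⟨0, ?_⟩
      show x ∈ g₁.symm '' pyramid n h
      refine ⟨g₁ x, ?_, by simp⟩
      have hM : ∀ i : Fin n, |x i.succ| ≤ (1 + η) / 2 := by
        intro i
        refine (h3' i).le.trans ?_
        have : -((x 0 - η) / h) ≤ η := by
          rw [← neg_div, div_le_iff₀ hpos]
          nlinarith
        linarith
      obtain ⟨ha, -, hb⟩ := hL ((1 + η) / 2) η x (by positivity) hη0.le hM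
        (abs_le.2 ⟨h1'.le, hlt.le⟩)
      have hg0 : g₁ x 0 = L x 0 + 2 := by simp [g₁]
      have hgs : ∀ i : Fin n, g₁ x i.succ = L x i.succ := by intro i; simp [g₁]
      obtain ⟨hb1, hb2⟩ := abs_le.1 hb
      rw [mem_pyramid hpos, hg0]
      refine ⟨by linarith, by linarith, fun i => ?_⟩
      rw [hgs i]
      refine (ha i i.2).trans ?_
      have h4 : (L x 0 + 2) / h ≤ (1 - ρ) / 2 := by
        rw [div_le_iff₀ hpos]
        nlinarith
      have h5 : ρ * ((1 + η) / 2) + η ≤ (1 + ρ) / 4 := by
        have : ρ * η ≤ η := by nlinarith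
        rw [hη] at this ⊢
        nlinarith
      linarith
    · refine ⟨1, ?_⟩
      show x ∈ g₂ '' pyramid n h
      refine ⟨g₂.symm x, ?_, by simp⟩
      have hg0 : g₂.symm x 0 = x 0 - η := by
        have : g₂.symm x = x + -EuclideanSpace.single 0 η := rfl
        rw [this]
        simp
        ring
      have hgs : ∀ i : Fin n, g₂.symm x i.succ = x i.succ := by
        intro i
        have : g₂.symm x = x + -EuclideanSpace.single 0 η := rfl
        rw [this]
        simp
      rw [mem_pyramid hpos, hg0]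
      refine ⟨by linarith, by linarith, fun i => ?_⟩
      rw [hgs i]
      exact (h3' i).le

lemma le_newtonNumber {E : Type} [PseudoMetricSpace E] {C : Set E} {k : ℕ}
    (hex : ∃ m, CoveredBy C m) (h : ∀ m, CoveredBy C m → k ≤ m) : k ≤ newtonNumber C :=
  h _ (Nat.sInf_mem hex)

/-- **The Newton covering number of the pyramid over the cube depends on the height, in every
dimension** `d = n + 1 ≥ 2`: it equals `2` for all sufficiently large heights, and it is at least
`3` for the height `√(3n)/2`. -/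
theorem result (n : ℕ) (hn : 1 ≤ n) :
    (∃ H : ℝ, 0 < H ∧ ∀ h, H ≤ h → newtonNumber (pyramid n h) = 2) ∧
      3 ≤ newtonNumber (pyramid n (Real.sqrt (3 * n) / 2)) := by
  have hn' : (1 : ℝ) ≤ n := by exact_mod_cast hn
  constructor
  · obtain ⟨H, hH, hcov⟩ := exists_tall (n := n)
    refine ⟨max H n, lt_max_of_lt_left hH, fun h hh => le_antisymm ?_ ?_⟩
    · exact Nat.sInf_le (hcov h ((le_max_left _ _).trans hh))
    · have hnh : (n : ℝ) ≤ h := (le_max_right _ _).trans hh
      have hle : Real.sqrt n ≤ Real.sqrt (h ^ 2 + n / 4) := by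
        apply Real.sqrt_le_sqrt
        nlinarith
      have hpos : 0 < Real.sqrt (h ^ 2 + n / 4) := Real.sqrt_pos.2 (by positivity)
      refine le_newtonNumber ⟨2, hcov h ((le_max_left _ _).trans hh)⟩ fun m hm => ?_
      exact two_le hpos (fun x hx y hy => dist_le_of_mem hpos.le hle le_rfl hx hy)
        (apex_mem h) (cube_subset h (vert_mem_cube (a := 1 / 2) (by norm_num)))
        (dist_apex_vert h (by norm_num)) hm
  · set h : ℝ := Real.sqrt (3 * n) / 2 with hh
    have hpos : 0 < h := by
      have : 0 < Real.sqrt (3 * n) := Real.sqrt_pos.2 (by positivity)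
      positivity
    have hsq : Real.sqrt (h ^ 2 + n / 4) = Real.sqrt n := by
      congr 1
      rw [hh, div_pow, Real.sq_sqrt (by positivity)]
      ring
    have hDpos : 0 < Real.sqrt n := Real.sqrt_pos.2 (by positivity)
    refine le_newtonNumber (exists_coveredBy (isCompact_pyramid hpos) (interior_nonempty hpos))
      fun m hm => ?_
    exact three_le hDpos (fun x hx y hy => dist_le_of_mem hDpos.le le_rfl hsq.le hx hy)
      (apex_mem h) (cube_subset h (vert_mem_cube (a := 1 / 2) (by norm_num)))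
      (cube_subset h (vert_mem_cube (a := -(1 / 2)) (by norm_num)))
      ((dist_apex_vert h (by norm_num)).trans hsq) ((dist_apex_vert h (by norm_num)).trans hsq)
      dist_verts hm

end Main

end Pool.Agent.Results.MP_90eaab_co.EveryDimension
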